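import Pool.Agent.KS6_36.Hat.A

set_option autoImplicit false

namespace Pool.Agent.Results.MP_a53771_co.VertexTransitive

/-- For every `g` and every number `q ≥ 1` of colours there is a finite connected vertex-transitive
graph without 4-cycles, and even without any cycle of length less than `g`, on which the players win
the hat guessing game with exactly `q` colours. -/
theorem result (g q : ℕ) (hq : 1 ≤ q) :
    ∃ (n : ℕ) (G : SimpleGraph (Fin n)),
      G.Connected ∧ (∀ u v, ∃ φ : G ≃g G, φ u = v) ∧
      (SimpleGraph.cycleGraph 4).Free G ∧ (g : ℕ∞) ≤ G.egirth ∧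
      ∃ f : Fin n → (Fin n → Fin q) → Fin q,
        (∀ v : Fin n, ∀ c c' : Fin n → Fin q,
            (∀ u : Fin n, G.Adj v u → c u = c' u) → f v c = f v c') ∧
        ∀ c : Fin n → Fin q, ∃ v : Fin n, f v c = c v := by
  obtain ⟨n, G, h1, h2, h3, h4⟩ := Pool.Agent.KS6_36.Hat.final (max g 5) q hq
  refine ⟨n, G, h1, h3, fun hc => ?_, le_trans (by exact_mod_cast le_max_left g 5) h2, h4⟩
  obtain ⟨v, p, hp, hl⟩ := (SimpleGraph.cycleGraph_isContained_iff (by norm_num)).mp hc
  have h5 : ((5 : ℕ) : ℕ∞) ≤ G.egirth := le_trans (by exact_mod_cast le_max_right g 5) h2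
  have h6 := h5.trans (SimpleGraph.egirth_le_length hp)
  rw [hl] at h6
  exact absurd h6 (by norm_num)

end Pool.Agent.Results.MP_a53771_co.VertexTransitive
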